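import Mathlib

/-!
# 2-near perfect numbers `2^k p^m`: geometric sums, the case `N < 2 p`
-/

set_option autoImplicit false
set_option linter.all false

open Finset

namespace Pool.Agent.P8H62.NP

/-- the geometric sum -/
def G (p : ℤ) (m : ℕ) : ℤ := ∑ i ∈ range m, p ^ i

theorem G_zero (p : ℤ) : G p 0 = 0 := by simp [G]

theorem G_succ (p : ℤ) (m : ℕ) : G p (m + 1) = p * G p m + 1 := by
  unfold G; rw [geom_sum_succ]

theorem G_succ' (p : ℤ) (m : ℕ) : G p (m + 1) = G p m + p ^ m := by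
  unfold G; rw [Finset.sum_range_succ]

theorem G_mul (p : ℤ) (m : ℕ) : (p - 1) * G p m = p ^ m - 1 := by
  unfold G; rw [mul_comm, geom_sum_mul]

theorem G_nonneg {p : ℤ} (hp : 0 ≤ p) (m : ℕ) : 0 ≤ G p m :=
  Finset.sum_nonneg fun i _ => pow_nonneg hp i

theorem G_pos {p : ℤ} (hp : 0 ≤ p) (m : ℕ) : 1 ≤ G p (m + 1) := by
  rw [G_succ]; have := G_nonneg hp m; nlinarith

theorem mul_small {p z y : ℤ} (h : p * z = y) (h1 : -p < y) (h2 : y < p) : z = 0 := by
  rcases lt_trichotomy z 0 with hz | hz | hz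
  · nlinarith
  · exact hz
  · nlinarith

theorem two_pow_le {a k : ℕ} (h : a ≤ k) : 2 * (2 : ℤ) ^ a ≤ 2 ^ (k + 1) := by
  rw [pow_succ, mul_comm]
  exact mul_le_mul_of_nonneg_right (pow_le_pow_right₀ (by norm_num) h) (by norm_num)

theorem two_pow_add {a c k : ℕ} (ha : a ≤ k) (hc : c ≤ k) (hne : a ≠ c) :
    4 * ((2 : ℤ) ^ a + 2 ^ c) ≤ 3 * 2 ^ (k + 1) := by
  rcases lt_or_gt_of_ne hne with h | h
  · have h1 := two_pow_le (show a ≤ c - 1 by omega)
    rw [show c - 1 + 1 = c by omega] at h1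
    have h2 := two_pow_le hc
    linarith
  · have h1 := two_pow_le (show c ≤ a - 1 by omega)
    rw [show a - 1 + 1 = a by omega] at h1
    have h2 := two_pow_le ha
    linarith

theorem L_small {p : ℤ} (hp : 3 ≤ p) {k m a b c d : ℕ} (ha : a ≤ k) (hc : c ≤ k) (hbd : b ≤ d)
    (hne : ¬ (a = c ∧ b = d)) (hm : 3 ≤ m) (hN : (2 : ℤ) ^ (k + 1) < 2 * p)
    (E : ((2 : ℤ) ^ (k + 1) - p) * G p m = 1 + 2 ^ a * p ^ b + 2 ^ c * p ^ d) :
    m = 3 ∧ p + 1 = 2 ^ (k + 1) := by
  obtain ⟨n, rfl⟩ : ∃ n, m = n + 3 := ⟨m - 3, by omega⟩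
  have hp0 : 0 ≤ p := by linarith
  obtain ⟨g, hg⟩ : ∃ g, g = G p n := ⟨_, rfl⟩
  have hg0 : 0 ≤ g := hg ▸ G_nonneg hp0 n
  obtain ⟨T2, hT2⟩ : ∃ T2, T2 = p * g + 1 := ⟨_, rfl⟩
  obtain ⟨T1, hT1⟩ : ∃ T1, T1 = p * T2 + 1 := ⟨_, rfl⟩
  have hT : G p (n + 3) = p * T1 + 1 := by
    rw [G_succ, G_succ, G_succ, hT1, hT2, hg]
  rw [hT] at E
  have hT2' : 1 ≤ T2 := by nlinarith
  have hT1' : p + 1 ≤ T1 := by nlinarith
  obtain ⟨s, hs⟩ : ∃ s, s = (2 : ℤ) ^ (k + 1) - p := ⟨_, rfl⟩
  rw [← hs] at E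
  have hsp : s < p := by linarith
  have hA := two_pow_le ha
  have hC := two_pow_le hc
  have hA1 : (1 : ℤ) ≤ 2 ^ a := one_le_pow₀ (by norm_num)
  have hC1 : (1 : ℤ) ≤ 2 ^ c := one_le_pow₀ (by norm_num)
  have hAp : (2 : ℤ) ^ a < p := by linarith
  have hCp : (2 : ℤ) ^ c < p := by linarith
  have hB1 : (1 : ℤ) ≤ p ^ b := one_le_pow₀ (by linarith)
  have hD1 : (1 : ℤ) ≤ p ^ d := one_le_pow₀ (by linarith)
  have hs1 : 1 ≤ s := by
    by_contra hcon
    have h1 : s ≤ 0 := by linarith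
    have h2 : s * (p * T1 + 1) ≤ 0 := mul_nonpos_of_nonpos_of_nonneg h1 (by nlinarith)
    nlinarith
  rcases b with _ | b
  · rcases d with _ | d
    · simp only [pow_zero, mul_one] at E
      have h1 : 0 ≤ p * T1 + 1 := by nlinarith
      have h2 : p * T1 + 1 ≤ s * (p * T1 + 1) := by nlinarith
      have h3 : 3 * (p + 1) ≤ p * T1 := by nlinarith
      linarith
    · have h0 := mul_small (p := p) (z := s * T1 - 2 ^ c * p ^ d) (y := 1 + 2 ^ a - s)
        (by rw [pow_succ] at E; linarith) (by linarith) (by linarith)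
      have h1 : s = 1 + 2 ^ a := by
        rw [pow_succ] at E
        have : p * (s * T1 - 2 ^ c * p ^ d) = 1 + 2 ^ a - s := by linarith
        rw [h0] at this
        linarith
      rcases d with _ | d
      · simp only [pow_zero, mul_one] at h0
        nlinarith
      · have h2 := mul_small (p := p) (z := 2 ^ c * p ^ d - s * T2) (y := s)
          (by rw [pow_succ, hT1] at h0; linarith) (by linarith) (by linarith)
        have h3 : p * (2 ^ c * p ^ d - s * T2) = s := by
          rw [pow_succ, hT1] at h0; linarith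
        rw [h2] at h3
        linarith
  · obtain ⟨d, rfl⟩ : ∃ d', d = d' + 1 := ⟨d - 1, by omega⟩
    have h00 : p * (s * T1 - 2 ^ a * p ^ b - 2 ^ c * p ^ d) = 1 - s := by
      rw [pow_succ, pow_succ] at E; linarith
    have h0 := mul_small h00 (by linarith) (by linarith)
    have hs1' : s = 1 := by
      rw [h0] at h00; linarith
    subst hs1'
    have hgoal : p + 1 = 2 ^ (k + 1) := by linarith
    refine ⟨?_, hgoal⟩
    rcases b with _ | b
    · simp only [pow_zero, mul_one, one_mul] at h0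
      rcases d with _ | d
      · exfalso
        simp only [pow_zero, mul_one] at h0
        have := two_pow_add ha hc (fun h => hne ⟨h, rfl⟩)
        nlinarith
      · have h10 : p * (T2 - 2 ^ c * p ^ d) = 2 ^ a - 1 := by
          rw [pow_succ, hT1] at h0; linarith
        have h1 := mul_small h10 (by linarith) (by linarith)
        rcases n with _ | n
        · rfl
        · exfalso
          have hg1 : 1 ≤ g := hg ▸ G_pos hp0 n
          rcases d with _ | d
          · simp only [pow_zero, mul_one] at h1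
            nlinarith
          · have h20 : p * (2 ^ c * p ^ d - g) = 1 := by
              rw [pow_succ, hT2] at h1; linarith
            have h2 := mul_small h20 (by linarith) (by linarith)
            rw [h2] at h20; linarith
    · exfalso
      obtain ⟨d, rfl⟩ : ∃ d', d = d' + 1 := ⟨d - 1, by omega⟩
      have h20 : p * (2 ^ a * p ^ b + 2 ^ c * p ^ d - T2) = 1 := by
        rw [pow_succ, pow_succ, hT1] at h0; linarith
      have h2 := mul_small h20 (by linarith) (by linarith)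
      rw [h2] at h20; linarith

end Pool.Agent.P8H62.NP
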