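import Pool.Agent.P8H62.NP.A

/-!
# 2-near perfect numbers `2^k p^m`: one of the divisors is divisible by `p^m`
-/

set_option autoImplicit false
set_option linter.all false

open Finset

namespace Pool.Agent.P8H62.NP

theorem pow_G (p : ℤ) (m : ℕ) : p ^ m = (p - 1) * G p m + 1 := by
  rw [G_mul]; ring

theorem dvd_N {p : ℤ} {N : ℤ} {m a b c d : ℕ} (hbd : b ≤ d) (hd : d ≤ m) (hm : 1 ≤ m)
    (E : (N - p) * G p m = 1 + 2 ^ a * p ^ b + 2 ^ c * p ^ d) : p ^ b ∣ N - 1 := by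
  obtain ⟨n, rfl⟩ : ∃ n, m = n + 1 := ⟨m - 1, by omega⟩
  have h1 : (N - 1) * G p (n + 1) = p ^ (n + 1) + 2 ^ a * p ^ b + 2 ^ c * p ^ d := by
    have := pow_G p (n + 1)
    linear_combination E - this
  have h2 : p ^ b ∣ (N - 1) * G p (n + 1) := by
    rw [h1]
    exact dvd_add (dvd_add (pow_dvd_pow p (by omega)) (dvd_mul_left _ _))
      ((pow_dvd_pow p hbd).mul_left _)
  have h3 : IsCoprime (p ^ b) (G p (n + 1)) := by
    apply IsCoprime.pow_left
    rw [G_succ]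
    exact ⟨-G p n, 1, by ring⟩
  exact h3.dvd_of_dvd_mul_right h2

theorem L_top {p : ℤ} (hp : 3 ≤ p) {k m a b c d : ℕ} (ha : a ≤ k) (hc : c ≤ k) (hbd : b ≤ d)
    (hd : d ≤ m) (hne : ¬ (a = c ∧ b = d)) (hm : 3 ≤ m) (hN : 2 * p + 2 ≤ (2 : ℤ) ^ (k + 1))
    (E : ((2 : ℤ) ^ (k + 1) - p) * G p m = 1 + 2 ^ a * p ^ b + 2 ^ c * p ^ d) : d = m := by
  by_contra hdm
  obtain ⟨n, rfl⟩ : ∃ n, m = n + 3 := ⟨m - 3, by omega⟩
  have hp0 : 0 ≤ p := by linarith
  have hp1 : 1 ≤ p := by linarith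
  have hdn : d ≤ n + 2 := by omega
  obtain ⟨N, hNN⟩ : ∃ N, N = (2 : ℤ) ^ (k + 1) := ⟨_, rfl⟩
  have hdvd := dvd_N hbd hd (by omega) E
  have hA := two_pow_le ha
  have hC := two_pow_le hc
  rw [← hNN] at E hN hA hC hdvd
  obtain ⟨g, hg⟩ : ∃ g, g = G p (n + 1) := ⟨_, rfl⟩
  obtain ⟨u, hu⟩ : ∃ u, u = p ^ (n + 1) := ⟨_, rfl⟩
  have hg1 : 1 ≤ g := hg ▸ G_pos hp0 n
  have hu1 : 3 ≤ u := by
    rw [hu, pow_succ]
    have : (1 : ℤ) ≤ p ^ n := one_le_pow₀ hp1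
    nlinarith
  have hu2 : p ^ (n + 2) = p * u := by rw [hu, pow_succ p (n + 1)]; ring
  have hT : G p (n + 3) = p * u + u + g := by
    rw [G_succ', G_succ', hu2, ← hu, ← hg]; ring
  obtain ⟨T, hTT⟩ : ∃ T, T = G p (n + 3) := ⟨_, rfl⟩
  rw [← hTT] at hT E
  have hT1 : 1 ≤ T := by rw [hT]; nlinarith
  have hA0 : (0 : ℤ) < 2 ^ a := by positivity
  have hC0 : (0 : ℤ) < 2 ^ c := by positivity
  have hB0 : (0 : ℤ) < p ^ b := by positivity
  have hD0 : (0 : ℤ) < p ^ d := by positivity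
  have hNT : (2 * p + 2) * T ≤ N * T := mul_le_mul_of_nonneg_right hN (by linarith)
  rcases Nat.lt_or_ge b d with hlt | hge
  · have hB : p ^ b ≤ u := hu ▸ pow_le_pow_right₀ hp1 (by omega)
    have hD : p ^ d ≤ p * u := hu2 ▸ pow_le_pow_right₀ hp1 (by omega)
    have h1 : 2 * (2 ^ a * p ^ b) ≤ N * u := by
      calc 2 * (2 ^ a * p ^ b) = (2 * 2 ^ a) * p ^ b := by ring
        _ ≤ N * u := mul_le_mul hA hB hB0.le (by linarith)
    have h2 : 2 * (2 ^ c * p ^ d) ≤ N * (p * u) := by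
      calc 2 * (2 ^ c * p ^ d) = (2 * 2 ^ c) * p ^ d := by ring
        _ ≤ N * (p * u) := mul_le_mul hC hD hD0.le (by linarith)
    have h3 : N * T = N * (p * u) + N * u + N * g := by rw [hT]; ring
    have h4 : 0 < N * g := by
      apply mul_pos <;> linarith
    nlinarith
  · have hbd' : b = d := by omega
    subst hbd'
    have hac : a ≠ c := fun h => hne ⟨h, rfl⟩
    have h34 := two_pow_add ha hc hac
    rw [← hNN] at h34
    rcases Nat.lt_or_ge b (n + 2) with h5 | h5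
    · have hB : p ^ b ≤ u := hu ▸ pow_le_pow_right₀ hp1 (by omega)
      have h1 : 4 * (2 ^ a + 2 ^ c) * p ^ b ≤ 3 * N * u :=
        mul_le_mul h34 hB hB0.le (by linarith)
      have h2 : 4 * u ≤ T := by rw [hT]; nlinarith
      have h3 : N * (4 * u) ≤ N * T := mul_le_mul_of_nonneg_left h2 (by linarith)
      nlinarith
    · have hb : b = n + 2 := by omega
      have h1 : 4 * (2 ^ a + 2 ^ c) * p ^ b ≤ 3 * N * (p * u) := by
        rw [hb, hu2]
        exact mul_le_mul_of_nonneg_right h34 (by positivity)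
      have h6 : p ^ 2 ∣ N - 1 := (pow_dvd_pow p (by omega)).trans hdvd
      have h7 : p ^ 2 ≤ N - 1 := Int.le_of_dvd (by linarith) h6
      have h8 : N * (4 * T - 3 * (p * u)) ≤ 4 + 4 * p * T := by linarith
      have h9 : 0 ≤ 4 * T - 3 * (p * u) := by rw [hT]; nlinarith
      have h10 : (p ^ 2 + 1) * (4 * T - 3 * (p * u)) ≤ 4 + 4 * p * T :=
        (mul_le_mul_of_nonneg_right (by linarith) h9).trans h8
      have h11 : 4 * (p ^ 2 - p + 1) * T ≤ 4 + 3 * (p ^ 2 + 1) * (p * u) := by linarith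
      have h12 : p * u + u + 1 ≤ T := by rw [hT]; linarith
      have h13 : 4 * (p ^ 2 - p + 1) * (p * u + u + 1) ≤ 4 * (p ^ 2 - p + 1) * T :=
        mul_le_mul_of_nonneg_left h12 (by nlinarith)
      have h14 : 4 * (p ^ 3 + 1) * u + 4 * (p ^ 2 - p + 1) ≤ 4 + 3 * (p ^ 3 + p) * u := by
        linarith
      have h15 : (p ^ 3 + 4 - 3 * p) * u ≤ 4 - 4 * (p ^ 2 - p + 1) := by linarith
      have h17 : 3 * p ≤ p ^ 2 := by nlinarith
      have h18 := mul_nonneg hp0 (show 0 ≤ p ^ 2 - 3 by linarith)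
      have h16 : 0 ≤ p ^ 3 + 4 - 3 * p := by linarith
      have h19 := mul_nonneg h16 (show 0 ≤ u by linarith)
      linarith

end Pool.Agent.P8H62.NP
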