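import Pool.Agent.P8H62.NP.A

/-!
# 2-near perfect numbers `2^k p^m`: powers of two dividing the geometric sum
-/

set_option autoImplicit false
set_option linter.all false

open Finset

namespace Pool.Agent.P8H62.NP

theorem G_parity {p : ℤ} (hp : Odd p) (n : ℕ) : Even (G p n) ↔ Even n := by
  induction n with
  | zero => simp [G_zero]
  | succ n ih =>
    rw [G_succ, Int.even_add_one, Int.even_mul, Nat.even_add_one, ih]
    have : ¬ Even p := Int.not_even_iff_odd.mpr hp
    tauto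

theorem G_cast (p m : ℕ) : ((∑ i ∈ range m, p ^ i : ℕ) : ℤ) = G p m := by
  simp [G]

/-- powers of two dividing `1 + p + ... + p^m`, `m` odd -/
theorem two_adic {p : ℕ} (hp : Odd p) (h1 : 1 < p) {m j : ℕ} (hm : Odd m)
    (h : (2 : ℤ) ^ j ∣ G p (m + 1)) : (2 : ℤ) ^ (j + 1) ∣ ((p : ℤ) + 1) * (m + 1) := by
  haveI : Fact (Nat.Prime 2) := ⟨Nat.prime_two⟩
  set S : ℕ := ∑ i ∈ range (m + 1), p ^ i with hS
  have hSG : (S : ℤ) = G p (m + 1) := G_cast p (m + 1)
  have hS0 : S ≠ 0 := by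
    intro h0
    have := G_pos (p := (p : ℤ)) (by positivity) m
    rw [← hSG, h0] at this
    norm_num at this
  have hj : 2 ^ j ∣ S := by
    have : ((2 ^ j : ℕ) : ℤ) ∣ (S : ℤ) := by rw [hSG]; exact_mod_cast h
    exact_mod_cast this
  have hj' : j ≤ padicValNat 2 S := (padicValNat_dvd_iff_le hS0).mp hj
  obtain ⟨r, hr⟩ := hp
  obtain ⟨r', hr'⟩ := hm
  have hlte := padicValNat.pow_two_sub_pow (x := p) (y := 1) (n := m + 1) h1
    ⟨r, by omega⟩ (by omega) (by omega) ⟨r' + 1, by omega⟩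
  have hprod : p ^ (m + 1) - 1 ^ (m + 1) = (p - 1) * S := by
    have h2 := G_mul (p : ℤ) (m + 1)
    rw [← hSG] at h2
    have h3 : (((p - 1) * S : ℕ) : ℤ) = ((p ^ (m + 1) - 1 ^ (m + 1) : ℕ) : ℤ) := by
      rw [Nat.cast_mul, Nat.cast_sub (by omega), one_pow, Nat.cast_sub (Nat.one_le_pow _ _ (by omega))]
      push_cast
      exact h2
    exact_mod_cast h3.symm
  rw [hprod, padicValNat.mul (by omega) hS0] at hlte
  have hv : padicValNat 2 ((p + 1) * (m + 1)) = padicValNat 2 (p + 1) + padicValNat 2 (m + 1) :=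
    padicValNat.mul (by omega) (by omega)
  have hd : 2 ^ (j + 1) ∣ (p + 1) * (m + 1) := by
    rw [padicValNat_dvd_iff_le (by positivity), hv]
    omega
  exact_mod_cast hd

end Pool.Agent.P8H62.NP
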