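import Pool.Agent.P8H62.NP.B
import Pool.Agent.P8H62.NP.C

/-!
# 2-near perfect numbers `2^k p^m`: not both divisors are divisible by `p^m`
-/

set_option autoImplicit false
set_option linter.all false

open Finset

namespace Pool.Agent.P8H62.NP

theorem F_bound {p : ℤ} (hp : Odd p) {k c : ℕ} (hc : c ≤ k)
    (h : (p - 1) * 2 ^ c < (2 : ℤ) ^ (k + 1)) : (p + 1) * 2 ^ c ≤ (2 : ℤ) ^ (k + 1) := by
  obtain ⟨e, rfl⟩ : ∃ e, k = c + e := ⟨k - c, by omega⟩
  have hZ : (0 : ℤ) < 2 ^ c := by positivity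
  have h1 : (2 : ℤ) ^ (c + e + 1) = (2 * 2 ^ e) * 2 ^ c := by ring
  rw [h1] at h ⊢
  have h2 : p - 1 < 2 * 2 ^ e := lt_of_mul_lt_mul_right h hZ.le
  obtain ⟨r, hr⟩ := hp
  have h3 : p + 1 ≤ 2 * 2 ^ e := by omega
  exact mul_le_mul_of_nonneg_right h3 hZ.le

theorem pow_big1 {p : ℤ} (hp : 3 ≤ p) (n : ℕ) :
    2 * p + 6 + (p + 1) ^ 2 * (n + 6) < 4 * p ^ (n + 4) := by
  induction n with
  | zero =>
    have h1 : 9 ≤ p ^ 2 := by nlinarith
    have h2 : 9 * p ^ 2 ≤ p ^ 4 := by nlinarith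
    push_cast
    nlinarith
  | succ n ih =>
    have h1 : p ^ (n + 1 + 4) = p * p ^ (n + 4) := by ring
    have h2 : 0 < p ^ (n + 4) := by positivity
    have h3 : 3 * p ^ (n + 4) ≤ p * p ^ (n + 4) := mul_le_mul_of_nonneg_right hp h2.le
    have h4 : 0 ≤ (p + 1) ^ 2 * (n : ℤ) := by positivity
    have h5 : 0 ≤ (p + 1) ^ 2 := by positivity
    rw [h1]
    push_cast at ih ⊢
    linarith

theorem G_ge {p : ℤ} (hp : 3 ≤ p) (n : ℕ) : p ^ 2 + p + 1 ≤ G p (n + 3) := by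
  rw [G_succ, G_succ, G_succ]
  have := G_nonneg (show 0 ≤ p by linarith) n
  have h1 : 0 ≤ p * G p n := by positivity
  have h2 : 0 ≤ p * (p * G p n) := by positivity
  have h3 : 0 ≤ p * (p * (p * G p n)) := by positivity
  nlinarith

theorem G_three (p : ℤ) : G p 3 = p ^ 2 + p + 1 := by
  rw [G_succ, G_succ, G_succ, G_zero]; ring

/-- the 2-adic conclusion -/
theorem two_adic' {p : ℕ} (hp : Odd p) (h1 : 1 < p) {m j : ℕ} (h : (2 : ℤ) ^ j ∣ G p (m + 1)) :
    (Even m ∧ j = 0) ∨ (Odd m ∧ (2 : ℤ) ^ (j + 1) ∣ ((p : ℤ) + 1) * (m + 1)) := by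
  rcases Nat.even_or_odd m with hm | hm
  · left
    refine ⟨hm, ?_⟩
    by_contra hj
    have h2 : (2 : ℤ) ∣ G p (m + 1) := (dvd_pow_self 2 hj).trans h
    have h3 : Even (G (p : ℤ) (m + 1)) := even_iff_two_dvd.mpr h2
    rw [G_parity (by exact_mod_cast hp)] at h3
    obtain ⟨r, hr⟩ := hm
    obtain ⟨r', hr'⟩ := h3
    omega
  · right
    exact ⟨hm, two_adic hp h1 hm h⟩

theorem L_both {p : ℕ} (hpo : Odd p) (hp3 : 3 ≤ p) {k m a c : ℕ} (hac : a < c) (hc : c ≤ k)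
    (hm : 3 ≤ m)
    (E : ((2 : ℤ) ^ (k + 1) - p) * G p m = 1 + 2 ^ a * (p : ℤ) ^ m + 2 ^ c * (p : ℤ) ^ m) :
    False := by
  have hpoZ : Odd (p : ℤ) := by exact_mod_cast hpo
  obtain ⟨P, hP⟩ : ∃ P : ℤ, P = p := ⟨_, rfl⟩
  have hP3 : 3 ≤ P := by rw [hP]; exact_mod_cast hp3
  obtain ⟨N, hN⟩ : ∃ N, N = (2 : ℤ) ^ (k + 1) := ⟨_, rfl⟩
  obtain ⟨X, hX⟩ : ∃ X, X = (2 : ℤ) ^ a := ⟨_, rfl⟩
  obtain ⟨Z, hZ⟩ : ∃ Z, Z = (2 : ℤ) ^ c := ⟨_, rfl⟩
  obtain ⟨T, hT⟩ : ∃ T, T = G P m := ⟨_, rfl⟩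
  have hX1 : 1 ≤ X := hX ▸ one_le_pow₀ (by norm_num)
  have hZ1 : 1 ≤ Z := hZ ▸ one_le_pow₀ (by norm_num)
  obtain ⟨n, rfl⟩ : ∃ n, m = n + 3 := ⟨m - 3, by omega⟩
  have hTge : P ^ 2 + P + 1 ≤ T := hT ▸ G_ge hP3 n
  have hpow := pow_G P (n + 3)
  rw [← hT] at hpow
  have hdS : (2 : ℤ) ^ a ∣ G p (n + 3 + 1) := by
    have h1 : G (p : ℤ) (n + 3 + 1) = 2 ^ (k + 1) * G p (n + 3) - (2 ^ a * (p : ℤ) ^ (n + 3) +
        2 ^ c * (p : ℤ) ^ (n + 3)) := by
      rw [G_succ]; linarith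
    rw [h1]
    exact dvd_sub ((pow_dvd_pow 2 (by omega)).mul_right _)
      (dvd_add (dvd_mul_right _ _) ((pow_dvd_pow 2 (by omega)).mul_right _))
  have hv := two_adic' hpo (by omega) hdS
  rw [← hP] at E hv hpoZ
  rw [← hN, ← hX, ← hZ, ← hT, hpow] at E
  have hT13 : 13 ≤ T := by nlinarith
  have E' : (N - P - (P - 1) * (X + Z)) * T = 1 + X + Z := by linear_combination E
  have hg1 : 1 ≤ N - P - (P - 1) * (X + Z) := by
    by_contra hcon
    have h1 : N - P - (P - 1) * (X + Z) ≤ 0 := by linarith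
    have h2 := mul_nonpos_of_nonpos_of_nonneg h1 (show 0 ≤ T by linarith)
    linarith
  have hPX : 0 ≤ (P - 1) * X := mul_nonneg (by linarith) (by linarith)
  have hTle : T ≤ 1 + X + Z := by
    have := mul_le_mul_of_nonneg_right hg1 (show 0 ≤ T by linarith)
    linarith
  have hNZ : (P + 1) * Z ≤ N := by
    rw [hZ, hN]
    apply F_bound hpoZ hc
    rw [← hZ, ← hN]
    linarith
  have h1 : (2 * T - 1) * Z ≤ T * (P + (P - 1) * X) + 1 + X := by
    have := mul_le_mul_of_nonneg_right hNZ (show 0 ≤ T by linarith)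
    linarith
  have h2 : (2 * T - 1) * (T - 1 - X) ≤ (2 * T - 1) * Z :=
    mul_le_mul_of_nonneg_left (by linarith) (by linarith)
  have h3 : 2 * T ≤ P + 3 + (P + 1) * X := by
    by_contra hcon
    have h4 : 0 < T * (2 * T - (P + 3 + (P + 1) * X)) := mul_pos (by linarith) (by linarith)
    linarith
  rcases hv with ⟨hev, ha0⟩ | ⟨hodd, hdvd⟩
  · rw [ha0, pow_zero] at hX
    rw [hX] at h3
    have : 9 ≤ P ^ 2 := by nlinarith
    linarith
  · rw [pow_succ, ← hX] at hdvd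
    rcases n with _ | _ | n
    · have hT3 : T = P ^ 2 + P + 1 := by rw [hT]; exact G_three P
      have h5 : (P + 1) * (2 * P - 1) ≤ (P + 1) * X := by rw [hT3] at h3; linarith
      have h6 : 2 * P - 1 ≤ X := le_of_mul_le_mul_left h5 (by linarith)
      obtain ⟨j, hj⟩ := hdvd
      have hj' : X * j = 2 * (P + 1) := by
        push_cast at hj
        linarith
      have hj1 : j = 1 := by
        have hjpos : 0 < j := by
          by_contra hcon
          have := mul_nonpos_of_nonneg_of_nonpos (show 0 ≤ X by linarith) (show j ≤ 0 by linarith)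
          linarith
        by_contra hcon
        have hj2 : 2 ≤ j := by omega
        have := mul_le_mul_of_nonneg_left hj2 (show 0 ≤ X by linarith)
        linarith
      rw [hj1, mul_one] at hj'
      have h7 : Z ≤ P ^ 2 + P := by
        by_contra hcon
        have h8 : T ≤ Z := by rw [hT3]; linarith
        have h9 := mul_le_mul_of_nonneg_left h8 (show 0 ≤ 2 * T - 1 by linarith)
        have h10 : (2 * T - 1) * T ≤ T * (P + (P - 1) * X) + 1 + X := h9.trans h1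
        rw [hj'] at h10
        have h11 : T * (2 * T - 1 - P - (P - 1) * (2 * (P + 1))) ≤ 1 + 2 * (P + 1) := by linarith
        have h12 : 2 * T - 1 - P - (P - 1) * (2 * (P + 1)) = P + 3 := by rw [hT3]; ring
        rw [h12] at h11
        nlinarith
      obtain ⟨z, hz⟩ : (2 : ℤ) * X ∣ Z := by
        rw [hX, hZ, mul_comm, ← pow_succ]
        exact pow_dvd_pow 2 (by omega)
      have h13 : (P + 1) * (4 * z) = Z := by rw [hz, hj']; ring
      have h14 : (P + 1) * (P - 2) ≤ (P + 1) * (4 * z) := by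
        rw [h13]; rw [hT3] at hTle; linarith
      have h15 : (P + 1) * (4 * z) ≤ (P + 1) * P := by rw [h13]; linarith
      have h16 := le_of_mul_le_mul_left h14 (by linarith)
      have h17 := le_of_mul_le_mul_left h15 (by linarith)
      have h18 : 3 ≤ a := by
        by_contra hcon
        have : (2 : ℤ) ^ a ≤ 2 ^ 2 := pow_le_pow_right₀ (by norm_num) (by omega)
        rw [← hX] at this
        linarith
      obtain ⟨y, hy⟩ : (2 : ℤ) ^ 3 ∣ X := by
        rw [hX]; exact pow_dvd_pow 2 h18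
      omega
    · obtain ⟨r, hr⟩ := hodd
      omega
    · have h5 : X * 2 ≤ (P + 1) * ((n + 1 + 1 + 3 : ℕ) + 1) :=
        Int.le_of_dvd (by positivity) hdvd
      have h6 : P ^ (n + 4) ≤ T := by
        rw [hT, G_succ']
        have := G_nonneg (show 0 ≤ P by linarith) (n + 4)
        linarith
      have h7 := pow_big1 hP3 n
      have h8 : (P + 1) * (X * 2) ≤ (P + 1) * ((P + 1) * ((n + 1 + 1 + 3 : ℕ) + 1)) :=
        mul_le_mul_of_nonneg_left h5 (by linarith)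
      push_cast at h8
      linarith

end Pool.Agent.P8H62.NP
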