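import Pool.Agent.P8H62.NP.D

/-!
# 2-near perfect numbers `2^k p^m`: one divisor divisible by `p^m`, inequalities
-/

set_option autoImplicit false
set_option linter.all false

open Finset

namespace Pool.Agent.P8H62.NP

/-- the case `2 A ≤ Z` -/
theorem case_i {P N w T Z A : ℤ} {b : ℕ} (hP : 3 ≤ P) (hw : 1 ≤ w) (hE : w * T = 1 + Z + A * P ^ b)
    (hA : 1 ≤ A) (hAZ : 2 * A ≤ Z) (hwP : 2 * Z ≤ w + P) (hB : P ^ b ≤ T - P - 1)
    (hN : N = w + P + (P - 1) * Z) (hd : P ^ b ≤ N - 1) (hT : P ^ 2 + P + 1 ≤ T) : False := by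
  obtain ⟨B, hBB⟩ : ∃ B, B = P ^ b := ⟨_, rfl⟩
  have hB1 : 1 ≤ B := hBB ▸ one_le_pow₀ (by linarith)
  rw [← hBB] at hE hB hd
  have hT13 : 13 ≤ T := by nlinarith
  have h1 : 2 * A * B ≤ Z * B := mul_le_mul_of_nonneg_right hAZ (by linarith)
  have h2 : Z * B ≤ Z * (T - P - 1) := mul_le_mul_of_nonneg_left hB (by linarith)
  have h3 : 2 * Z * T ≤ (w + P) * T := mul_le_mul_of_nonneg_right hwP (by linarith)
  have hZP : Z ≤ P - 1 := by
    by_contra hcon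
    have h4 : P ≤ Z := by linarith
    have h5 : P * T ≤ Z * T := mul_le_mul_of_nonneg_right h4 (by linarith)
    have h6 : Z * 3 ≤ Z * P := mul_le_mul_of_nonneg_left hP (by linarith)
    have h7 : 13 * Z ≤ T * Z := mul_le_mul_of_nonneg_right hT13 (by linarith)
    linarith
  have h8 : Z * (T - P - 1) ≤ (P - 1) * (T - P - 1) :=
    mul_le_mul_of_nonneg_right hZP (by linarith)
  have h9 : 2 * w ≤ P - 2 := by
    by_contra hcon
    have h10 : P - 1 ≤ 2 * w := by linarith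
    have h11 : (P - 1) * T ≤ (2 * w) * T := mul_le_mul_of_nonneg_right h10 (by linarith)
    nlinarith
  have h12 : N - 1 < P ^ 2 := by
    have : (P - 1) * Z ≤ (P - 1) * (P - 1) := mul_le_mul_of_nonneg_left hZP (by linarith)
    nlinarith
  have h13 : b < 2 := by
    by_contra hcon
    have : P ^ 2 ≤ P ^ b := pow_le_pow_right₀ (by linarith) (by omega)
    linarith
  have h14 : B ≤ P := by
    rw [hBB]
    calc P ^ b ≤ P ^ 1 := pow_le_pow_right₀ (by linarith) (by omega)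
      _ = P := pow_one P
  have h15 : T ≤ w * T := by nlinarith
  have h16 : Z * B ≤ (P - 1) * P := mul_le_mul hZP h14 (by linarith) (by linarith)
  nlinarith

/-- `w < Y` -/
theorem w_lt {P w T X A B : ℤ} (hP : 3 ≤ P) (hw : 1 ≤ w) (hX : 1 ≤ X)
    (hE : w * T = 1 + X + A * B) (hA : 2 * A ≤ w + P + (P - 1) * X) (hB1 : 1 ≤ B)
    (hB : B ≤ T - P - 1) : w < P + (P - 1) * X := by
  by_contra hcon
  have h1 : P + (P - 1) * X ≤ w := by linarith
  have h2 : 2 * A ≤ 2 * w := by linarith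
  have h3 : 2 * A * B ≤ 2 * w * B := mul_le_mul_of_nonneg_right h2 (by linarith)
  have h4 : w * B ≤ w * (T - P - 1) := mul_le_mul_of_nonneg_left hB (by linarith)
  have h5 : 3 * w ≤ P * w := mul_le_mul_of_nonneg_right hP (by linarith)
  have h6 : 2 * X ≤ (P - 1) * X := mul_le_mul_of_nonneg_right (by linarith) (by linarith)
  linarith

/-- `m` even, at least four -/
theorem case_even {P w T A B : ℤ} (hP : 3 ≤ P) (hw : 1 ≤ w) (hE : w * T = 1 + 1 + A * B)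
    (hA : A ≤ 2 * P - 2) (hA0 : 0 ≤ A) (hB : B ≤ 4 * P - 5) (hT : P ^ 3 + P ^ 2 + P + 1 ≤ T) :
    False := by
  have h0 : 0 ≤ P ^ 3 := by positivity
  have h00 : 0 ≤ P ^ 2 := by positivity
  have h1 : T ≤ w * T := by nlinarith
  have h2 : A * B ≤ (2 * P - 2) * (4 * P - 5) := by
    calc A * B ≤ A * (4 * P - 5) := mul_le_mul_of_nonneg_left hB hA0
      _ ≤ _ := mul_le_mul_of_nonneg_right hA (by linarith)
  have h3 : 0 ≤ (P - 3) ^ 2 := sq_nonneg _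
  have h4 : 0 ≤ (P - 1) * (P - 3) ^ 2 := mul_nonneg (by linarith) h3
  nlinarith

theorem pow_big2 {p : ℤ} (hp : 3 ≤ p) (n : ℕ) : ((n : ℤ) + 11) ^ 2 < 2 * p ^ (n + 4) := by
  induction n with
  | zero =>
    have h1 : 9 ≤ p ^ 2 := by nlinarith
    have h2 : 81 ≤ p ^ 4 := by nlinarith
    push_cast
    linarith
  | succ n ih =>
    have h1 : p ^ (n + 1 + 4) = p * p ^ (n + 4) := by ring
    have h2 : 0 < p ^ (n + 4) := by positivity
    have h3 : 3 * p ^ (n + 4) ≤ p * p ^ (n + 4) := mul_le_mul_of_nonneg_right hp h2.le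
    rw [h1]
    push_cast
    nlinarith

/-- `m = 5` -/
theorem case_five {P w X A : ℤ} {b : ℕ} (hP : 3 ≤ P) (hw : 1 ≤ w) (hX1 : 1 ≤ X) (hX : X ≤ P + 1)
    (hE : w * (P ^ 4 + P ^ 3 + P ^ 2 + P + 1) = 1 + X + A * P ^ b) (hA0 : 0 ≤ A)
    (hA : A ≤ P + (P - 1) * X - 1) (hB : P ^ b ≤ 2 * (P + (P - 1) * X) - 3) : False := by
  have h0 : 0 ≤ P ^ 4 + P ^ 3 + P ^ 2 + P + 1 := by positivity
  have h1 : P ^ 4 + P ^ 3 + P ^ 2 + P + 1 ≤ w * (P ^ 4 + P ^ 3 + P ^ 2 + P + 1) := by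
    nlinarith
  have h2 : (P - 1) * X ≤ (P - 1) * (P + 1) := mul_le_mul_of_nonneg_left hX (by linarith)
  have h9 : 9 ≤ P ^ 2 := by nlinarith
  have h3 : 3 * P ^ 2 ≤ P ^ 3 := by nlinarith
  have h4 : b < 3 := by
    by_contra hcon
    have : P ^ 3 ≤ P ^ b := pow_le_pow_right₀ (by linarith) (by omega)
    nlinarith
  have h5 : P ^ b ≤ P ^ 2 := pow_le_pow_right₀ (by linarith) (by omega)
  have h6 : A * P ^ b ≤ (P ^ 2 + P - 2) * P ^ 2 := by
    calc A * P ^ b ≤ A * P ^ 2 := mul_le_mul_of_nonneg_left h5 hA0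
      _ ≤ _ := mul_le_mul_of_nonneg_right (by linarith) (by positivity)
  nlinarith

/-- `m = 7` -/
theorem case_seven {P w X A : ℤ} {b : ℕ} (hP : 3 ≤ P) (hw : 1 ≤ w) (hX1 : 1 ≤ X)
    (hX : X ≤ 4 * (P + 1))
    (hE : w * (P ^ 6 + P ^ 5 + P ^ 4 + P ^ 3 + P ^ 2 + P + 1) = 1 + X + A * P ^ b) (hA0 : 0 ≤ A)
    (hA : A ≤ P + (P - 1) * X - 1) (hB : P ^ b ≤ 2 * (P + (P - 1) * X) - 3) : False := by
  have h0 : 0 ≤ P ^ 6 + P ^ 5 + P ^ 4 + P ^ 3 + P ^ 2 + P + 1 := by positivity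
  have h1 : P ^ 6 + P ^ 5 + P ^ 4 + P ^ 3 + P ^ 2 + P + 1 ≤
      w * (P ^ 6 + P ^ 5 + P ^ 4 + P ^ 3 + P ^ 2 + P + 1) := by
    nlinarith
  have h2 : (P - 1) * X ≤ (P - 1) * (4 * (P + 1)) := mul_le_mul_of_nonneg_left hX (by linarith)
  have h9 : 9 ≤ P ^ 2 := by nlinarith
  have h9' : 3 * P ≤ P ^ 2 := by nlinarith
  have h3 : 9 * P ^ 2 ≤ P ^ 4 := by nlinarith
  have h4 : b < 4 := by
    by_contra hcon
    have : P ^ 4 ≤ P ^ b := pow_le_pow_right₀ (by linarith) (by omega)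
    linarith
  have h5 : P ^ b ≤ P ^ 3 := pow_le_pow_right₀ (by linarith) (by omega)
  have h6 : A * P ^ b ≤ (4 * P ^ 2 + P - 5) * P ^ 3 := by
    calc A * P ^ b ≤ A * P ^ 3 := mul_le_mul_of_nonneg_left h5 hA0
      _ ≤ _ := mul_le_mul_of_nonneg_right (by linarith) (by positivity)
  have h7 : 3 * P ^ 5 ≤ P ^ 6 := by
    have : 0 ≤ P ^ 5 := by positivity
    have e : P ^ 6 = P * P ^ 5 := by ring
    rw [e]
    exact mul_le_mul_of_nonneg_right hP this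
  have h8 : 0 ≤ P ^ 3 := by positivity
  nlinarith

/-- `m` odd, at least nine -/
theorem case_big {P w T X A B : ℤ} (n : ℕ) (hP : 3 ≤ P) (hw : 1 ≤ w) (hX1 : 1 ≤ X)
    (hX : X * 2 ≤ (P + 1) * (n + 10)) (hE : w * T = 1 + X + A * B) (hT : P ^ (n + 8) ≤ T)
    (hA0 : 0 ≤ A) (hA : A ≤ P + (P - 1) * X - 1) (hB : B ≤ 2 * (P + (P - 1) * X) - 3) : False := by
  obtain ⟨Y, hY⟩ : ∃ Y, Y = P + (P - 1) * X := ⟨_, rfl⟩
  rw [← hY] at hA hB
  have hT0 : 0 ≤ T := le_trans (by positivity) hT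
  have h1 : T ≤ w * T := by nlinarith
  have h9' : 3 * P ≤ P ^ 2 := by nlinarith
  have hXY : 2 * X ≤ Y := by
    rw [hY]
    have : 2 * X ≤ (P - 1) * X := mul_le_mul_of_nonneg_right (by linarith) (by linarith)
    linarith
  have hY3 : 3 ≤ Y := by
    rw [hY]
    have : 0 ≤ (P - 1) * X := mul_nonneg (by linarith) (by linarith)
    linarith
  have h2 : A * B ≤ (Y - 1) * (2 * Y - 3) := by
    calc A * B ≤ A * (2 * Y - 3) := mul_le_mul_of_nonneg_left hB hA0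
      _ ≤ _ := mul_le_mul_of_nonneg_right hA (by linarith)
  have h3 : T ≤ 2 * Y ^ 2 := by nlinarith
  have h4 : 2 * Y ≤ P ^ 2 * (n + 11) := by
    have h5 : (P - 1) * (X * 2) ≤ (P - 1) * ((P + 1) * (n + 10)) :=
      mul_le_mul_of_nonneg_left hX (by linarith)
    have h6 : (0 : ℤ) ≤ n := by positivity
    rw [hY]
    nlinarith
  have h5 : (2 * Y) ^ 2 ≤ (P ^ 2 * (n + 11)) ^ 2 := pow_le_pow_left₀ (by linarith) h4 2
  have h6 := pow_big2 hP n
  have h7 : P ^ (n + 8) = P ^ 4 * P ^ (n + 4) := by ring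
  have h8 : 0 < P ^ 4 := by positivity
  have h10 : P ^ 4 * ((n : ℤ) + 11) ^ 2 < P ^ 4 * (2 * P ^ (n + 4)) := mul_lt_mul_of_pos_left h6 h8
  have h11 : (P ^ 2 * ((n : ℤ) + 11)) ^ 2 = P ^ 4 * ((n : ℤ) + 11) ^ 2 := by ring
  rw [h11] at h5
  rw [h7] at hT
  nlinarith

end Pool.Agent.P8H62.NP
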