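import Pool.Agent.P8H62.NP.E

/-!
# 2-near perfect numbers `2^k p^m`: `m = 3`, and the classification for `m ≥ 3`
-/

set_option autoImplicit false
set_option linter.all false

open Finset

namespace Pool.Agent.P8H62.NP

/-- `m = 3`, `X = 2^c` is one or two times `P + 1`, divided by... : here `P + 1 ≤ X`, `b ≤ 1` -/
theorem case3_AB1 {P w X A B N : ℤ} (hP : 3 ≤ P) (hX : P + 1 ≤ X) (hw : 2 * X ≤ w + P)
    (hE : w * (P ^ 2 + P + 1) = 1 + X + A * B) (hN : N = w + P + (P - 1) * X) (hA : 2 * A ≤ N)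
    (hA0 : 0 ≤ A) (hB : B ≤ P) : False := by
  have h1 : 2 * A * B ≤ N * P := by
    calc 2 * A * B ≤ 2 * A * P := mul_le_mul_of_nonneg_left hB (by linarith)
      _ ≤ N * P := mul_le_mul_of_nonneg_right hA (by linarith)
  rw [hN] at h1
  have h2 : w * (2 * P ^ 2 + P + 2) ≤ 2 + P ^ 2 + X * (P ^ 2 - P + 2) := by linarith
  have h3 : (2 * X - P) * (2 * P ^ 2 + P + 2) ≤ w * (2 * P ^ 2 + P + 2) :=
    mul_le_mul_of_nonneg_right (by linarith) (by positivity)
  have h4 : X * (3 * P ^ 2 + 3 * P + 2) ≤ 2 + P ^ 2 + P * (2 * P ^ 2 + P + 2) := by linarith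
  have h5 : (P + 1) * (3 * P ^ 2 + 3 * P + 2) ≤ X * (3 * P ^ 2 + 3 * P + 2) :=
    mul_le_mul_of_nonneg_right hX (by positivity)
  have h6 : 0 ≤ P ^ 3 := by positivity
  nlinarith

/-- `m = 3`, `3 X ≤ 2 (P + 1)`, `b = 0` -/
theorem case3_C0 {P w X A N : ℤ} (hP : 3 ≤ P) (hw : 1 ≤ w) (hX : 3 * X ≤ 2 * (P + 1))
    (hE : w * (P ^ 2 + P + 1) = 1 + X + A) (hN : N = w + P + (P - 1) * X) (hA : 2 * A ≤ N) :
    False := by
  have h1 : w * (2 * P ^ 2 + 2 * P + 1) ≤ 2 + P + (P + 1) * X := by linarith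
  have h2 : (P + 1) * (3 * X) ≤ (P + 1) * (2 * (P + 1)) := mul_le_mul_of_nonneg_left hX (by linarith)
  have h3 : 2 * P ^ 2 + 2 * P + 1 ≤ w * (2 * P ^ 2 + 2 * P + 1) := by
    have : 0 ≤ 2 * P ^ 2 + 2 * P + 1 := by positivity
    nlinarith
  nlinarith

/-- `m = 3`, `3 X ≤ 2 (P + 1)`, `b = 1` -/
theorem case3_C1 {P w X N : ℤ} {a : ℕ} (hP : 3 ≤ P) (hw : 1 ≤ w) (hwo : Odd w) (hX1 : 1 ≤ X)
    (hX : 3 * X ≤ 2 * (P + 1))
    (hE : w * (P ^ 2 + P + 1) = 1 + X + 2 ^ a * P) (hN : N = w + P + (P - 1) * X)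
    (hA : 2 * 2 ^ a ≤ N) : False := by
  have h1 : 2 * 2 ^ a * P ≤ N * P := mul_le_mul_of_nonneg_right hA (by linarith)
  rw [hN] at h1
  have h2 : w * (2 * P ^ 2 + P + 2) ≤ 2 + P ^ 2 + X * (P ^ 2 - P + 2) := by linarith
  have hwP : w < P := by
    by_contra hcon
    have h3 : P * (2 * P ^ 2 + P + 2) ≤ w * (2 * P ^ 2 + P + 2) :=
      mul_le_mul_of_nonneg_right (by linarith) (by positivity)
    have h4 : (3 * X) * (P ^ 2 - P + 2) ≤ (2 * (P + 1)) * (P ^ 2 - P + 2) :=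
      mul_le_mul_of_nonneg_right hX (by nlinarith)
    have h5 : 0 ≤ P ^ 3 := by positivity
    nlinarith
  have h3 : P * (2 ^ a - w * (P + 1)) = w - 1 - X := by linarith
  have h4 := mul_small h3 (by linarith) (by linarith)
  rw [h4, mul_zero] at h3
  have h5 : w = 1 + X := by linarith
  have h6 : (2 : ℤ) ^ a = w * (P + 1) := by linarith
  have h7 : IsCoprime w (2 : ℤ) := by
    obtain ⟨r, hr⟩ := hwo
    exact ⟨1, -r, by rw [hr]; ring⟩
  have h8 : IsUnit w := (h7.pow_right (n := a)).isUnit_of_dvd' dvd_rfl ⟨P + 1, h6⟩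
  rcases Int.isUnit_iff.mp h8 with h9 | h9 <;> linarith

/-- `m = 3`, `3 X ≤ 2 (P + 1)`, `b = 2` -/
theorem case3_C2 {P N X : ℤ} (hP : 3 ≤ P) (hPo : Odd P) (hX : 3 * X ≤ 2 * (P + 1))
    (hN4 : (4 : ℤ) ∣ N) (hN2 : 2 ≤ N) (hN : N < 2 * (P + (P - 1) * X)) (hd : P ^ 2 ∣ N - 1) :
    False := by
  obtain ⟨R, hR⟩ := hd
  have h1 : (P - 1) * (3 * X) ≤ (P - 1) * (2 * (P + 1)) := mul_le_mul_of_nonneg_left hX (by linarith)
  have h9 : 9 ≤ P ^ 2 := by nlinarith
  have hR1 : 1 ≤ R := by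
    by_contra hcon
    have : P ^ 2 * R ≤ 0 := mul_nonpos_of_nonneg_of_nonpos (by linarith) (by linarith)
    linarith
  have hR3 : R < 3 := by
    by_contra hcon
    have h2 : P ^ 2 * 3 ≤ P ^ 2 * R := mul_le_mul_of_nonneg_left (by linarith) (by linarith)
    nlinarith
  obtain ⟨r, hr⟩ := hPo
  obtain ⟨x, hx⟩ := hN4
  have h3 : P ^ 2 = 4 * (r ^ 2 + r) + 1 := by rw [hr]; ring
  have h4 : R = 1 ∨ R = 2 := by omega
  rcases h4 with h4 | h4
  · rw [h4, h3, mul_one] at hR; omega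
  · rw [h4, h3] at hR; omega

/-- a power of two in `[Q, 2 Q)`, `Q` a power of two -/
theorem pow_between {i j : ℕ} (h1 : (2 : ℤ) ^ i ≤ 2 ^ j) (h2 : (2 : ℤ) ^ j < 2 * 2 ^ i) : i = j := by
  have h3 : i ≤ j := (pow_le_pow_iff_right₀ (by norm_num)).mp h1
  rw [← pow_succ'] at h2
  have h4 : j < i + 1 := (pow_lt_pow_iff_right₀ (by norm_num)).mp h2
  omega

/-- `m = 3`, `X = 2 (P + 1)` or `X = P + 1`, `b = 2` -/
theorem case3_AB2 {P : ℤ} {k c : ℕ} (hP : 3 ≤ P) (hc : c ≤ k)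
    (hX : (2 : ℤ) ^ c = 2 * (P + 1) ∨ (2 : ℤ) ^ c = P + 1)
    (hN1 : (P + 1) * 2 ^ c ≤ (2 : ℤ) ^ (k + 1))
    (hN : (2 : ℤ) ^ (k + 1) < 2 * (P + (P - 1) * 2 ^ c)) (hd : P ^ 2 ∣ (2 : ℤ) ^ (k + 1) - 1) :
    False := by
  obtain ⟨e, rfl⟩ : ∃ e, k = c + e := ⟨k - c, by omega⟩
  have hZ : (0 : ℤ) < 2 ^ c := by positivity
  have e1 : (2 : ℤ) ^ (c + e + 1) = 2 ^ (e + 1) * 2 ^ c := by ring
  rw [e1] at hN1 hN hd
  have h1 : P + 1 ≤ 2 ^ (e + 1) := le_of_mul_le_mul_right hN1 hZ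
  have h2 : (2 : ℤ) ^ (e + 1) < 2 * (P + 1) := by
    by_contra hcon
    have h3 : 2 * (P + 1) * 2 ^ c ≤ 2 ^ (e + 1) * 2 ^ c :=
      mul_le_mul_of_nonneg_right (by linarith) hZ.le
    have h4 : P + 1 ≤ 2 ^ c := by rcases hX with h | h <;> linarith
    linarith
  obtain ⟨i, hi⟩ : ∃ i : ℕ, P + 1 = 2 ^ i := by
    rcases hX with h | h
    · obtain ⟨c', rfl⟩ : ∃ c', c = c' + 1 := by
        rcases c with _ | c
        · rw [pow_zero] at h; linarith
        · exact ⟨c, rfl⟩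
      exact ⟨c', by rw [pow_succ] at h; linarith⟩
    · exact ⟨c, h.symm⟩
  have h3 := pow_between (i := i) (j := e + 1) (by rw [← hi]; exact h1) (by rw [← hi]; exact h2)
  rw [← h3, ← hi] at hd
  rcases hX with h | h
  · rw [h] at hd
    have h4 : P ^ 2 ∣ 4 * P + 1 := by
      have h5 : (P + 1) * (2 * (P + 1)) - 1 = 4 * P + 1 + P ^ 2 * 2 := by ring
      rw [h5] at hd
      exact (Int.dvd_add_left (dvd_mul_right _ _)).mp hd
    have h5 : P ^ 2 ≤ 4 * P + 1 := Int.le_of_dvd (by linarith) h4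
    have h6 : P ≤ 4 := by nlinarith
    have h7 : P = 3 ∨ P = 4 := by omega
    rcases h7 with rfl | rfl
    · norm_num at h4
    · norm_num at h4
  · rw [h] at hd
    have h4 : P ^ 2 ∣ 2 * P := by
      have h5 : (P + 1) * (P + 1) - 1 = 2 * P + P ^ 2 * 1 := by ring
      rw [h5] at hd
      exact (Int.dvd_add_left (dvd_mul_right _ _)).mp hd
    have h5 : P ^ 2 ≤ 2 * P := Int.le_of_dvd (by linarith) h4
    nlinarith

theorem L_mixed {p : ℕ} (hpo : Odd p) (hp3 : 3 ≤ p) {k m a b c : ℕ} (ha : a ≤ k) (hc : c ≤ k)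
    (hb : b < m) (hm : 3 ≤ m) (hNp : 2 * (p : ℤ) + 2 ≤ (2 : ℤ) ^ (k + 1))
    (E : ((2 : ℤ) ^ (k + 1) - p) * G p m = 1 + 2 ^ a * (p : ℤ) ^ b + 2 ^ c * (p : ℤ) ^ m) :
    False := by
  have hpoZ : Odd (p : ℤ) := by exact_mod_cast hpo
  have hdB := dvd_N hb.le le_rfl (by omega) E
  obtain ⟨P, hP⟩ : ∃ P : ℤ, P = p := ⟨_, rfl⟩
  have hP3 : 3 ≤ P := by rw [hP]; exact_mod_cast hp3
  obtain ⟨N, hN⟩ : ∃ N, N = (2 : ℤ) ^ (k + 1) := ⟨_, rfl⟩
  obtain ⟨A, hA⟩ : ∃ A, A = (2 : ℤ) ^ a := ⟨_, rfl⟩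
  obtain ⟨Z, hZ⟩ : ∃ Z, Z = (2 : ℤ) ^ c := ⟨_, rfl⟩
  obtain ⟨T, hT⟩ : ∃ T, T = G P m := ⟨_, rfl⟩
  have hA1 : 1 ≤ A := hA ▸ one_le_pow₀ (by norm_num)
  have hZ1 : 1 ≤ Z := hZ ▸ one_le_pow₀ (by norm_num)
  have hAN : 2 * A ≤ N := by rw [hA, hN]; exact two_pow_le ha
  obtain ⟨n, rfl⟩ : ∃ n, m = n + 3 := ⟨m - 3, by omega⟩
  have hTge : P ^ 2 + P + 1 ≤ T := hT ▸ G_ge hP3 n
  have hpow := pow_G P (n + 3)
  rw [← hT] at hpow
  have hdS : (2 : ℤ) ^ (min a c) ∣ G p (n + 3 + 1) := by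
    have h1 : G (p : ℤ) (n + 3 + 1) = 2 ^ (k + 1) * G p (n + 3) - (2 ^ a * (p : ℤ) ^ b +
        2 ^ c * (p : ℤ) ^ (n + 3)) := by
      rw [G_succ]; linarith
    rw [h1]
    exact dvd_sub ((pow_dvd_pow 2 (by omega)).mul_right _)
      (dvd_add ((pow_dvd_pow 2 (by omega)).mul_right _) ((pow_dvd_pow 2 (by omega)).mul_right _))
  have hv := two_adic' hpo (by omega) hdS
  rw [← hP] at E hv hpoZ hdB hNp
  rw [← hN] at hdB hNp
  rw [← hN, ← hA, ← hZ, ← hT, hpow] at E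
  have hT13 : 13 ≤ T := by nlinarith
  obtain ⟨w, hw⟩ : ∃ w, w = N - P - (P - 1) * Z := ⟨_, rfl⟩
  have hNw : N = w + P + (P - 1) * Z := by rw [hw]; ring
  have E' : w * T = 1 + Z + A * P ^ b := by rw [hw]; linear_combination E
  have hB1 : 1 ≤ P ^ b := one_le_pow₀ (by linarith)
  have hAB0 : 0 ≤ A * P ^ b := by positivity
  have hw1 : 1 ≤ w := by
    by_contra hcon
    have h2 := mul_nonpos_of_nonpos_of_nonneg (show w ≤ 0 by linarith) (show 0 ≤ T by linarith)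
    linarith
  have hNZ : (P + 1) * Z ≤ N := by
    rw [hZ, hN]
    apply F_bound hpoZ hc
    rw [← hZ, ← hN]
    linarith
  have hwP : 2 * Z ≤ w + P := by rw [hw]; linarith
  have hBN : P ^ b ≤ N - 1 := Int.le_of_dvd (by linarith) hdB
  have hBT : P ^ b ≤ T - P - 1 := by
    have h1 : T = G P (n + 2) + P ^ (n + 2) := by rw [hT, G_succ']
    have h2 : P ^ b ≤ P ^ (n + 2) := pow_le_pow_right₀ (by linarith) (by omega)
    have h3 : P + 1 ≤ G P (n + 2) := by
      rw [G_succ, G_succ]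
      have := G_nonneg (show 0 ≤ P by linarith) n
      have h4 : 0 ≤ P * (P * G P n) := by positivity
      linarith
    linarith
  rcases Nat.lt_or_ge a c with hac | hac
  · have hAZ : 2 * A ≤ Z := by
      rw [hA, hZ]
      have := two_pow_le (show a ≤ c - 1 by omega)
      rwa [show c - 1 + 1 = c by omega] at this
    exact case_i hP3 hw1 E' hA1 hAZ hwP hBT hNw hBN hTge
  · rw [min_eq_right hac] at hv
    have hwY : w < P + (P - 1) * Z :=
      w_lt hP3 hw1 hZ1 E' (by linarith) hB1 hBT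
    have hN2 : N = 2 * 2 ^ k := by rw [hN, pow_succ]; ring
    have hAk : A ≤ 2 ^ k := by linarith
    have hAY : A ≤ P + (P - 1) * Z - 1 := by
      have : (2 : ℤ) ^ k < P + (P - 1) * Z := by linarith
      linarith [Int.le_sub_one_of_lt this]
    have hBY : P ^ b ≤ 2 * (P + (P - 1) * Z) - 3 := by
      have : (2 : ℤ) ^ k < P + (P - 1) * Z := by linarith
      linarith [Int.le_sub_one_of_lt this]
    have hwodd : Odd w := by
      obtain ⟨r, hr⟩ := hpoZ
      refine ⟨2 ^ k - r - 1 - r * Z, ?_⟩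
      rw [hw, hN2, hr]; ring
    have hA0 : 0 ≤ A := by linarith
    rcases hv with ⟨hev, hc0⟩ | ⟨hodd, hdvd⟩
    · rw [hc0, pow_zero] at hZ
      subst hZ
      rcases n with _ | n
      · obtain ⟨r, hr⟩ := hev; omega
      · refine case_even (T := T) (A := A) (B := P ^ b) hP3 hw1 E' (by linarith) hA0 (by linarith) ?_
        rw [hT, G_succ, G_succ, G_succ, G_succ]
        have := G_nonneg (show 0 ≤ P by linarith) n
        have h4 : 0 ≤ P * (P * (P * (P * G P n))) := by positivity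
        linarith
    · rw [pow_succ, ← hZ] at hdvd
      have hcase : n = 0 ∨ n = 2 ∨ n = 4 ∨ ∃ n', n = n' + 6 := by
        obtain ⟨r, hr⟩ := hodd
        by_cases h6 : 6 ≤ n
        · exact Or.inr (Or.inr (Or.inr ⟨n - 6, by omega⟩))
        · omega
      rcases hcase with rfl | rfl | rfl | ⟨n, rfl⟩
      · have hT3 : T = P ^ 2 + P + 1 := by rw [hT]; exact G_three P
        rw [hT3] at E'
        obtain ⟨j, hj⟩ := hdvd
        have hj' : Z * j = 2 * (P + 1) := by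
          push_cast at hj
          linarith
        have hjpos : 0 < j := by
          by_contra hcon
          have := mul_nonpos_of_nonneg_of_nonpos (show 0 ≤ Z by linarith) (show j ≤ 0 by linarith)
          linarith
        have hN4 : (4 : ℤ) ∣ N := by
          have hk : 2 ≤ k + 1 := by
            by_contra hcon
            have h1 : N ≤ 2 ^ 1 := by rw [hN]; exact pow_le_pow_right₀ (by norm_num) (by omega)
            linarith
          rw [hN]
          exact (pow_dvd_pow (2 : ℤ) hk)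
        rcases (show j = 1 ∨ j = 2 ∨ 3 ≤ j by omega) with hj1 | hj1 | hj1
        · rw [hj1] at hj'
          rcases (show b = 0 ∨ b = 1 ∨ b = 2 by omega) with rfl | rfl | rfl
          · exact case3_AB1 hP3 (by linarith) hwP E' hNw hAN hA0 (by rw [pow_zero]; linarith)
          · exact case3_AB1 hP3 (by linarith) hwP E' hNw hAN hA0 (by rw [pow_one])
          · rw [hN] at hdB hNZ
            rw [hZ] at hNZ hj'
            exact case3_AB2 hP3 hc (Or.inl (by linarith)) hNZ (by rw [← hN, ← hZ]; linarith) hdB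
        · rw [hj1] at hj'
          rcases (show b = 0 ∨ b = 1 ∨ b = 2 by omega) with rfl | rfl | rfl
          · exact case3_AB1 hP3 (by linarith) hwP E' hNw hAN hA0 (by rw [pow_zero]; linarith)
          · exact case3_AB1 hP3 (by linarith) hwP E' hNw hAN hA0 (by rw [pow_one])
          · rw [hN] at hdB hNZ
            rw [hZ] at hNZ hj'
            exact case3_AB2 hP3 hc (Or.inr (by linarith)) hNZ (by rw [← hN, ← hZ]; linarith) hdB
        · have h3X : 3 * Z ≤ 2 * (P + 1) := by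
            rw [← hj']
            have := mul_le_mul_of_nonneg_left hj1 (show 0 ≤ Z by linarith)
            linarith
          rcases (show b = 0 ∨ b = 1 ∨ b = 2 by omega) with rfl | rfl | rfl
          · rw [pow_zero, mul_one] at E'
            exact case3_C0 hP3 hw1 h3X E' hNw hAN
          · rw [pow_one, hA] at E'
            rw [hA] at hAN
            exact case3_C1 hP3 hw1 hwodd hZ1 h3X E' hNw hAN
          · exact case3_C2 hP3 hpoZ h3X hN4 (by linarith) (by linarith) hdB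
      · -- m = 5
        have h1 : Z ∣ 3 * (P + 1) := by
          obtain ⟨j, hj⟩ := hdvd
          push_cast at hj
          exact ⟨j, by linarith⟩
        have h2 : IsCoprime Z 3 := by
          rw [hZ]
          apply IsCoprime.pow_left
          exact ⟨-1, 1, by norm_num⟩
        have h3 : Z ∣ P + 1 := h2.dvd_of_dvd_mul_left h1
        have h4 : Z ≤ P + 1 := Int.le_of_dvd (by linarith) h3
        have hT5 : T = P ^ 4 + P ^ 3 + P ^ 2 + P + 1 := by
          rw [hT, G_succ, G_succ, G_succ, G_succ, G_succ, G_zero]; ring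
        rw [hT5] at E'
        exact case_five hP3 hw1 hZ1 h4 E' hA0 hAY hBY
      · -- m = 7
        have h1 : Z ∣ 4 * (P + 1) := by
          obtain ⟨j, hj⟩ := hdvd
          push_cast at hj
          exact ⟨j, by linarith⟩
        have h4 : Z ≤ 4 * (P + 1) := Int.le_of_dvd (by linarith) h1
        have hT7 : T = P ^ 6 + P ^ 5 + P ^ 4 + P ^ 3 + P ^ 2 + P + 1 := by
          rw [hT, G_succ, G_succ, G_succ, G_succ, G_succ, G_succ, G_succ, G_zero]; ring
        rw [hT7] at E'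
        exact case_seven hP3 hw1 hZ1 h4 E' hA0 hAY hBY
      · have h5 : Z * 2 ≤ (P + 1) * ((n + 6 + 3 : ℕ) + 1) := Int.le_of_dvd (by positivity) hdvd
        refine case_big n hP3 hw1 hZ1 (by push_cast at h5; linarith) E' ?_ hA0 hAY hBY
        have h6 : T = G P (n + 8) + P ^ (n + 8) := by
          rw [hT, show n + 6 + 3 = n + 8 + 1 by ring, G_succ']
        rw [h6]
        have := G_nonneg (show 0 ≤ P by linarith) (n + 8)
        linarith

/-- **The classification for `m ≥ 3`**, in terms of the exponents -/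
theorem classify {p : ℕ} (hpo : Odd p) (hp3 : 3 ≤ p) {k m a b c d : ℕ} (ha : a ≤ k) (hc : c ≤ k)
    (hb : b ≤ m) (hd : d ≤ m) (hne : ¬ (a = c ∧ b = d)) (hm : 3 ≤ m)
    (E : ((2 : ℤ) ^ (k + 1) - p) * G p m = 1 + 2 ^ a * (p : ℤ) ^ b + 2 ^ c * (p : ℤ) ^ d) :
    m = 3 ∧ p + 1 = 2 ^ (k + 1) := by
  wlog hbd : b ≤ d generalizing a b c d
  · exact this hc ha hd hb (fun h => hne ⟨h.1.symm, h.2.symm⟩) (by linarith) (by omega)
  have hP3 : (3 : ℤ) ≤ p := by exact_mod_cast hp3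
  rcases lt_or_ge ((2 : ℤ) ^ (k + 1)) (2 * p) with h | h
  · obtain ⟨h1, h2⟩ := L_small hP3 ha hc hbd hne hm h E
    exact ⟨h1, by exact_mod_cast h2⟩
  · exfalso
    have h2 : 2 * (p : ℤ) + 2 ≤ (2 : ℤ) ^ (k + 1) := by
      obtain ⟨r, hr⟩ := hpo
      rw [pow_succ] at h ⊢
      have h3 : (p : ℤ) ≤ 2 ^ k := by linarith
      have h4 : (p : ℤ) ≠ 2 ^ k := by
        intro h5
        have h6 : p = 2 ^ k := by exact_mod_cast h5
        rcases k with _ | k
        · rw [pow_zero] at h6; omega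
        · rw [pow_succ] at h6; omega
      have h5 : (p : ℤ) + 1 ≤ 2 ^ k := by
        rcases lt_or_eq_of_le h3 with h6 | h6
        · linarith [Int.add_one_le_iff.mpr h6]
        · exact absurd h6 h4
      linarith
    have h3 := L_top hP3 ha hc hbd hd hne hm h2 E
    subst h3
    rcases lt_or_eq_of_le hb with h4 | h4
    · exact L_mixed hpo hp3 ha hc h4 hm h2 E
    · subst h4
      rcases lt_trichotomy a c with h5 | h5 | h5
      · exact L_both hpo hp3 h5 hc hm E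
      · exact hne ⟨h5, rfl⟩
      · exact L_both hpo hp3 h5 ha hm (by linarith)

end Pool.Agent.P8H62.NP
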