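import Pool.Agent.P8H62.NP.F

/-!
# 2-near perfect numbers `2^k p^2`
-/

set_option autoImplicit false
set_option linter.all false

open Finset

namespace Pool.Agent.P8H62.NP

theorem even_or_one (a : ℕ) : (2 : ℤ) ^ a = 1 ∨ ∃ x : ℤ, 1 ≤ x ∧ (2 : ℤ) ^ a = 2 * x := by
  rcases a with _ | a
  · left; simp
  · right
    exact ⟨2 ^ a, one_le_pow₀ (by norm_num), by rw [pow_succ]; ring⟩

theorem dvd_of_lt {i j : ℕ} {x : ℤ} (h : (2 : ℤ) ^ i < x) (hx : x ≤ 2 ^ j) : (2 : ℤ) ^ (i + 1) ∣ 2 ^ j := by
  apply pow_dvd_pow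
  by_contra hcon
  have : (2 : ℤ) ^ j ≤ 2 ^ i := pow_le_pow_right₀ (by norm_num) (by omega)
  linarith

theorem classify2 {p : ℕ} (hpo : Odd p) (hp3 : 3 ≤ p) {k a b c d : ℕ} (ha : a ≤ k) (hc : c ≤ k)
    (hb : b ≤ 2) (hd : d ≤ 2) (hne : ¬ (a = c ∧ b = d))
    (E : ((2 : ℤ) ^ (k + 1) - p) * ((p : ℤ) + 1) = 1 + 2 ^ a * (p : ℤ) ^ b + 2 ^ c * (p : ℤ) ^ d) :
    (p = 3 ∧ k = 1) ∨ (p = 3 ∧ k = 2) ∨ (p = 5 ∧ k = 3) := by
  wlog hbd : b < d ∨ (b = d ∧ a < c) generalizing a b c d
  · exact this hc ha hd hb (fun h => hne ⟨h.1.symm, h.2.symm⟩) (by linarith) (by omega)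
  have hpoZ : Odd (p : ℤ) := by exact_mod_cast hpo
  obtain ⟨P, hP⟩ : ∃ P : ℤ, P = p := ⟨_, rfl⟩
  have hP3 : 3 ≤ P := by rw [hP]; exact_mod_cast hp3
  have hfin : ∀ x y : ℕ, P = x → (2 : ℤ) ^ (k + 1) = 2 ^ (y + 1) → p = x ∧ k = y := by
    intro x y h1 h2
    refine ⟨by rw [hP] at h1; exact_mod_cast h1, ?_⟩
    have h3 : (2 : ℕ) ^ (k + 1) = 2 ^ (y + 1) := by exact_mod_cast h2
    have := Nat.pow_right_injective le_rfl h3
    omega
  rw [← hP] at E hpoZ
  obtain ⟨N, hN⟩ : ∃ N, N = (2 : ℤ) ^ (k + 1) := ⟨_, rfl⟩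
  obtain ⟨A, hA⟩ : ∃ A, A = (2 : ℤ) ^ a := ⟨_, rfl⟩
  obtain ⟨Z, hZ⟩ : ∃ Z, Z = (2 : ℤ) ^ c := ⟨_, rfl⟩
  have hA1 : 1 ≤ A := hA ▸ one_le_pow₀ (by norm_num)
  have hZ1 : 1 ≤ Z := hZ ▸ one_le_pow₀ (by norm_num)
  have hAN : 2 * A ≤ N := by rw [hA, hN]; exact two_pow_le ha
  have hZN : 2 * Z ≤ N := by rw [hZ, hN]; exact two_pow_le hc
  have hAe := even_or_one a
  have hZe := even_or_one c
  have hN2 : N = 2 * 2 ^ k := by rw [hN, pow_succ]; ring
  obtain ⟨K, hK⟩ : ∃ K, K = (2 : ℤ) ^ k := ⟨_, rfl⟩
  rw [← hK] at hN2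
  rw [← hA] at hAe
  rw [← hZ] at hZe
  rw [← hN, ← hA, ← hZ] at E
  rw [← hN] at hfin
  obtain ⟨r, hr⟩ := hpoZ
  have hr1 : 1 ≤ r := by omega
  have hNP : N ≠ 2 * P := by
    intro h
    have h1 : P = 2 ^ k := by rw [← hK]; linarith
    rcases even_or_one k with h2 | ⟨x, _, h2⟩
    · rw [h2] at h1; linarith
    · rw [h2] at h1; omega
  have hAB0 : 0 ≤ A * P ^ b := by positivity
  have hZB0 : 0 ≤ Z * P ^ d := by positivity
  have hs1 : 1 ≤ N - P := by
    by_contra hcon
    have h2 := mul_nonpos_of_nonpos_of_nonneg (show N - P ≤ 0 by linarith)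
      (show 0 ≤ P + 1 by linarith)
    linarith
  have hN4 : (4 : ℤ) ∣ N := by
    have h1 := dvd_of_lt (i := 1) (j := k + 1) (x := P) (by norm_num; linarith) (by rw [← hN]; linarith)
    rw [← hN] at h1
    norm_num at h1
    exact h1
  have hcases : (b = 0 ∧ d = 0) ∨ (b = 0 ∧ d = 1) ∨ (b = 0 ∧ d = 2) ∨ (b = 1 ∧ d = 1) ∨
      (b = 1 ∧ d = 2) ∨ (b = 2 ∧ d = 2) := by
    clear * - hb hd hbd
    omega
  rcases hcases with
    ⟨rfl, rfl⟩ | ⟨rfl, rfl⟩ | ⟨rfl, rfl⟩ | ⟨rfl, rfl⟩ | ⟨rfl, rfl⟩ | ⟨rfl, rfl⟩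
  · -- (0,0)
    have hac : a ≠ c := by omega
    have h34 := two_pow_add ha hc hac
    rw [← hA, ← hZ, ← hN] at h34
    simp only [pow_zero, mul_one] at E
    have h1 : (N - P) * (4 * P + 1) ≤ 4 + 3 * P := by linarith
    have h2 : 1 * (4 * P + 1) ≤ (N - P) * (4 * P + 1) :=
      mul_le_mul_of_nonneg_right hs1 (by linarith)
    have h3 : P = 3 := by linarith
    have h4 : N = 4 := by rw [h3] at h1 hs1; omega
    left
    exact hfin 3 1 (by rw [h3]; norm_num) (by rw [h4]; norm_num)
  · -- (0,1)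
    exfalso
    simp only [pow_zero, mul_one, pow_one] at E
    have h0 : 2 * Z * P ≤ N * P := mul_le_mul_of_nonneg_right hZN (by linarith)
    have h1 : (N - P - P) * (P + 1) ≤ 2 := by linarith
    have h2 : N - P ≤ P := by
      by_contra hcon
      have : 1 * (P + 1) ≤ (N - P - P) * (P + 1) :=
        mul_le_mul_of_nonneg_right (by omega) (by linarith)
      linarith
    have h3 : N < 2 * P := by
      rcases lt_or_eq_of_le h2 with h | h
      · linarith
      · exact absurd (by linarith) hNP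
    have h4 : P * (Z - (N - P)) = (N - P) - 1 - A := by linarith
    have h5 := mul_small h4 (by linarith) (by linarith)
    rw [h5, mul_zero] at h4
    rcases hZe with h | ⟨x, _, h⟩
    · linarith
    · omega
  · -- (0,2)
    simp only [pow_zero, mul_one] at E
    obtain ⟨w, hw⟩ : ∃ w, w = N - P - (P - 1) * Z := ⟨_, rfl⟩
    have E' : w * (P + 1) = 1 + Z + A := by rw [hw]; linear_combination E
    have hw1 : 1 ≤ w := by
      by_contra hcon
      have h2 := mul_nonpos_of_nonpos_of_nonneg (show w ≤ 0 by linarith)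
        (show 0 ≤ P + 1 by linarith)
      linarith
    have hNZ : (P + 1) * Z ≤ N := by
      rw [hZ, hN]
      apply F_bound ⟨r, hr⟩ hc
      rw [← hZ, ← hN]
      linarith
    have hwP : 2 * Z ≤ w + P := by rw [hw]; linarith
    have h1 : w * (2 * P + 1) ≤ 2 + P + (P + 1) * Z := by linarith
    have h2 : (2 * Z - P) * (2 * P + 1) ≤ w * (2 * P + 1) :=
      mul_le_mul_of_nonneg_right (by linarith) (by linarith)
    have hpar : w * (2 * (r + 1)) = 1 + Z + A := by rw [← E', hr]; ring
    rcases hZe with hz | ⟨z, hz1, hz⟩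
    · exfalso
      rw [hz] at h1 hw
      have h3 : w < 2 := by
        by_contra hcon
        have : 2 * (2 * P + 1) ≤ w * (2 * P + 1) :=
          mul_le_mul_of_nonneg_right (by linarith) (by linarith)
        linarith
      exact hNP (by linarith)
    · rcases hAe with hA' | ⟨x, hx1, hx⟩
      · rw [hA'] at E'
        have h3 : P + 1 ≤ 2 + Z := by nlinarith
        have h4 : Z * (3 * P + 1) ≤ 2 * (P ^ 2 + P + 1) := by linarith
        have h5 : (P - 1) * (3 * P + 1) ≤ Z * (3 * P + 1) :=
          mul_le_mul_of_nonneg_right (by linarith) (by linarith)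
        have h6 : P ≤ 4 := by nlinarith
        have h7 : P = 3 := by omega
        rw [h7] at h4 E' hw
        have h8 : Z = 2 := by omega
        rw [h8] at E' hw
        right; left
        exact hfin 3 2 (by rw [h7]; norm_num) (by norm_num; omega)
      · exfalso
        rw [hz, hx] at hpar
        have : w * (2 * (r + 1)) = 2 * (w * (r + 1)) := by ring
        rw [this] at hpar
        omega
  · -- (1,1)
    exfalso
    have hac : a ≠ c := by omega
    have h34 := two_pow_add ha hc hac
    rw [← hA, ← hZ, ← hN] at h34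
    simp only [pow_one] at E
    obtain ⟨q, hq⟩ : ∃ q, q = A + Z - (N - P) := ⟨_, rfl⟩
    have h1 : P * q = N - P - 1 := by rw [hq]; linarith
    have hq0 : 0 ≤ q := by
      by_contra hcon
      have : P * q ≤ P * (-1) := mul_le_mul_of_nonneg_left (by omega) (by linarith)
      linarith
    have h2 : q * (P + 4) ≤ 3 * P - 1 := by
      have : A + Z = 1 + q * (P + 1) := by linarith
      rw [this] at h34
      linarith
    have h3 : q < 3 := by
      by_contra hcon
      have : 3 * (P + 4) ≤ q * (P + 4) := mul_le_mul_of_nonneg_right (by linarith) (by linarith)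
      linarith
    rcases (show q = 0 ∨ q = 1 ∨ q = 2 by omega) with hq' | hq' | hq'
    · rw [hq'] at h1 hq; linarith
    · rw [hq'] at h1; omega
    · rw [hq'] at h1 h2 hq
      have h4 : 9 ≤ P := by linarith
      have h5 : N = 3 * P + 1 := by linarith
      have h6 : A + Z = 2 * P + 3 := by linarith
      have h7 : A = 1 := by
        rcases hAe with h | ⟨x, hx1, hx⟩
        · exact h
        · rcases hZe with h | ⟨z, hz1, hz⟩
          · exfalso
            have h8 : a < c := by omega
            have h9 : A < Z := by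
              rw [hA, hZ]; exact pow_lt_pow_right₀ (by norm_num) h8
            linarith
          · omega
      have h8 : Z = 2 * P + 2 := by linarith
      have h9 := dvd_of_lt (i := 2) (j := c) (x := 2 * P + 2) (by norm_num; linarith) (by rw [← hZ, h8])
      have h10 := dvd_of_lt (i := 2) (j := k + 1) (x := P) (by norm_num; linarith) (by rw [← hN]; linarith)
      rw [← hZ] at h9
      rw [← hN] at h10
      norm_num at h9 h10
      omega
  · -- (1,2)
    simp only [pow_one] at E
    obtain ⟨w, hw⟩ : ∃ w, w = N - P - (P - 1) * Z := ⟨_, rfl⟩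
    have E' : w * (P + 1) = 1 + Z + A * P := by rw [hw]; linear_combination E
    have hAP0 : 0 ≤ A * P := by positivity
    have hw1 : 1 ≤ w := by
      by_contra hcon
      have h2 := mul_nonpos_of_nonpos_of_nonneg (show w ≤ 0 by linarith)
        (show 0 ≤ P + 1 by linarith)
      linarith
    have hNZ : (P + 1) * Z ≤ N := by
      rw [hZ, hN]
      apply F_bound ⟨r, hr⟩ hc
      rw [← hZ, ← hN]
      linarith
    have hwP : 2 * Z ≤ w + P := by rw [hw]; linarith
    have h0 : 2 * A * P ≤ N * P := mul_le_mul_of_nonneg_right hAN (by linarith)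
    have h1 : w * (P + 2) ≤ 2 + P ^ 2 + Z * (P ^ 2 - P + 2) := by
      have : N = w + P + (P - 1) * Z := by rw [hw]; ring
      rw [this] at h0
      linarith
    have hpar : 2 * (w * (r + 1)) = 1 + Z + A + 2 * (A * r) := by
      have : w * (P + 1) = 1 + Z + A * P := E'
      rw [hr] at this
      linarith
    rcases hZe with hz | ⟨z, hz1, hz⟩
    · rw [hz] at h1 hw E'
      have h2 : P * (A - w) = w - 2 := by linarith
      obtain ⟨q, hq⟩ : ∃ q, q = A - w := ⟨_, rfl⟩
      rw [← hq] at h2
      have hq0 : 0 ≤ q := by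
        by_contra hcon
        have : P * q ≤ P * (-1) := mul_le_mul_of_nonneg_left (by omega) (by linarith)
        linarith
      have hq3 : q < 3 := by
        by_contra hcon
        have h3 : P * 3 ≤ P * q := mul_le_mul_of_nonneg_left (by linarith) (by linarith)
        have h4 : (3 * P + 2) * (P + 2) ≤ w * (P + 2) :=
          mul_le_mul_of_nonneg_right (by linarith) (by linarith)
        nlinarith
      rcases (show q = 0 ∨ q = 1 ∨ q = 2 by omega) with hq' | hq' | hq'
      · rw [hq'] at h2; omega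
      · rw [hq'] at h2 hq
        have h3 : A = P + 3 := by linarith
        have h4 : N = 3 * P + 1 := by linarith
        rcases lt_or_ge 8 A with h5 | h5
        · exfalso
          have h9 := dvd_of_lt (i := 3) (j := a) (x := A) (by norm_num; linarith) (by rw [← hA])
          have h10 := dvd_of_lt (i := 3) (j := k + 1) (x := 9) (by norm_num) (by rw [← hN]; linarith)
          rw [← hA] at h9
          rw [← hN] at h10
          norm_num at h9 h10
          omega
        · have h6 := dvd_of_lt (i := 2) (j := a) (x := A) (by norm_num; linarith) (by rw [← hA])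
          rw [← hA] at h6
          norm_num at h6
          have h7 : P = 5 := by omega
          right; right
          exact hfin 5 3 (by rw [h7]; norm_num) (by rw [h4, h7]; norm_num)
      · rw [hq'] at h2; omega
    · exfalso
      rcases hAe with hA' | ⟨x, hx1, hx⟩
      · rw [hA'] at E'
        have h2 : (w - 1) * (P + 1) = Z := by linarith
        have h3 : 1 ≤ w - 1 := by
          by_contra hcon
          have h4 := mul_nonpos_of_nonpos_of_nonneg (show w - 1 ≤ 0 by linarith)
            (show 0 ≤ P + 1 by linarith)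
          linarith
        nlinarith
      · rw [hz, hx] at hpar
        omega
  · -- (2,2)
    exfalso
    have hac : a < c := by omega
    obtain ⟨g, hg⟩ : ∃ g, g = N - P - (P - 1) * (A + Z) := ⟨_, rfl⟩
    have E' : g * (P + 1) = 1 + A + Z := by rw [hg]; linear_combination E
    have hg1 : 1 ≤ g := by
      by_contra hcon
      have h2 := mul_nonpos_of_nonpos_of_nonneg (show g ≤ 0 by linarith)
        (show 0 ≤ P + 1 by linarith)
      linarith
    have hPA : 0 ≤ (P - 1) * A := mul_nonneg (by linarith) (by linarith)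
    have hNZ : (P + 1) * Z ≤ N := by
      rw [hZ, hN]
      apply F_bound ⟨r, hr⟩ hc
      rw [← hZ, ← hN]
      linarith
    have hpar : 2 * (g * (r + 1)) = 1 + A + Z := by rw [← E', hr]; ring
    obtain ⟨z, hz1, hz⟩ : ∃ z : ℤ, 1 ≤ z ∧ Z = 2 * z := by
      rcases hZe with h | h
      · exfalso
        have : A < Z := by rw [hA, hZ]; exact pow_lt_pow_right₀ (by norm_num) hac
        linarith
      · exact h
    have hA' : A = 1 := by
      rcases hAe with h | ⟨x, hx1, hx⟩
      · exact h
      · rw [hz, hx] at hpar; omega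
    rw [hA'] at E' hg
    have h1 : g * (2 * P + 1) ≤ 2 * P + 3 := by linarith
    have h2 : g < 2 := by
      by_contra hcon
      have : 2 * (2 * P + 1) ≤ g * (2 * P + 1) :=
        mul_le_mul_of_nonneg_right (by linarith) (by linarith)
      linarith
    have h3 : g = 1 := by omega
    rw [h3] at E' hg
    have h4 : Z = P - 1 := by linarith
    have h5 : N = 1 + P ^ 2 := by
      rw [h4] at hg
      linarith
    have h6 : P ^ 2 = 4 * (r ^ 2 + r) + 1 := by rw [hr]; ring
    rw [h6] at h5
    omega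

end Pool.Agent.P8H62.NP
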