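import Pool.Agent.P8H62.NP.H

/-!
# 2-near perfect numbers `2^k p^m`: the classification
-/

set_option autoImplicit false
set_option linter.all false

open Finset

namespace Pool.Agent.P8H62.NP

/-- `n` is 2-near perfect: `σ(n) = 2 n + d₁ + d₂` for two distinct divisors `d₁ ≠ d₂` of `n` -/
def TwoNearPerfect (n : ℕ) : Prop :=
  0 < n ∧ ∃ d₁ d₂ : ℕ, d₁ ∣ n ∧ d₂ ∣ n ∧ d₁ ≠ d₂ ∧ ∑ d ∈ n.divisors, d = 2 * n + d₁ + d₂

theorem sum_div {p : ℕ} (hp : p.Prime) (hp2 : p ≠ 2) (k m : ℕ) :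
    ((∑ d ∈ (2 ^ k * p ^ m).divisors, d : ℕ) : ℤ) = (2 ^ (k + 1) - 1) * G p (m + 1) := by
  have hco : Nat.Coprime (2 ^ k) (p ^ m) := by
    apply Nat.Coprime.pow
    exact (Nat.coprime_primes Nat.prime_two hp).mpr (Ne.symm hp2)
  rw [Nat.Coprime.sum_divisors_mul hco, Nat.sum_divisors_prime_pow hp,
    Nat.sum_divisors_prime_pow Nat.prime_two]
  have h1 : ((∑ x ∈ range (k + 1), 2 ^ x : ℕ) : ℤ) = 2 ^ (k + 1) - 1 := by
    have h2 := G_mul 2 (k + 1)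
    rw [G_cast]
    push_cast
    linarith
  rw [Nat.cast_mul, h1, G_cast]

/-- the equation in terms of the exponents -/
theorem eqn {p : ℕ} (hp : p.Prime) (hp2 : p ≠ 2) {k m d₁ d₂ : ℕ}
    (h : ∑ d ∈ (2 ^ k * p ^ m).divisors, d = 2 * (2 ^ k * p ^ m) + d₁ + d₂) :
    ((2 : ℤ) ^ (k + 1) - p) * G p m = 1 + d₁ + d₂ := by
  have h1 := sum_div hp hp2 k m
  rw [h] at h1
  have h2 := pow_G (p : ℤ) m
  rw [G_succ'] at h1
  push_cast at h1
  rw [pow_succ] at h1 ⊢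
  linear_combination -h1 + h2

theorem two_case {j : ℕ} {x : ℕ} : ∑ d ∈ (2 ^ j).divisors, d ≠ 2 * 2 ^ j + x := by
  intro h
  rw [Nat.sum_divisors_prime_pow Nat.prime_two] at h
  have := Nat.geomSum_lt (m := 2) (n := j + 1) (s := range (j + 1)) le_rfl
    (fun k hk => Finset.mem_range.mp hk)
  rw [h, pow_succ] at this
  omega

theorem forward {n p k m : ℕ} (hp : p.Prime) (hm : 2 ≤ m) (hn : n = 2 ^ k * p ^ m)
    (h : TwoNearPerfect n) :
    (n = 18 ∨ n = 36 ∨ n = 200) ∨ (m = 3 ∧ p + 1 = 2 ^ (k + 1)) := by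
  obtain ⟨h0, d₁, d₂, hd₁, hd₂, hne, hs⟩ := h
  by_cases hp2 : p = 2
  · exfalso
    subst hp2
    rw [← pow_add] at hn
    rw [hn, add_assoc] at hs
    exact two_case hs
  · have hpo : Odd p := hp.odd_of_ne_two hp2
    have hp3 : 3 ≤ p := by
      have := hp.two_le
      omega
    subst hn
    have E := eqn hp hp2 hs
    obtain ⟨x₁, y₁, hx₁, hy₁, rfl⟩ := (Nat.dvd_mul).mp hd₁
    obtain ⟨x₂, y₂, hx₂, hy₂, rfl⟩ := (Nat.dvd_mul).mp hd₂
    obtain ⟨a, ha, rfl⟩ := (Nat.dvd_prime_pow Nat.prime_two).mp hx₁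
    obtain ⟨c, hc, rfl⟩ := (Nat.dvd_prime_pow Nat.prime_two).mp hx₂
    obtain ⟨b, hb, rfl⟩ := (Nat.dvd_prime_pow hp).mp hy₁
    obtain ⟨d, hd, rfl⟩ := (Nat.dvd_prime_pow hp).mp hy₂
    have hne' : ¬ (a = c ∧ b = d) := by
      rintro ⟨rfl, rfl⟩
      exact hne rfl
    push_cast at E
    rcases Nat.lt_or_ge m 3 with h3 | h3
    · have hm2 : m = 2 := by omega
      subst hm2
      have hG : G (p : ℤ) 2 = p + 1 := by
        rw [G_succ, G_succ, G_zero]; ring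
      rw [hG] at E
      left
      rcases classify2 hpo hp3 ha hc hb hd hne' E with ⟨rfl, rfl⟩ | ⟨rfl, rfl⟩ | ⟨rfl, rfl⟩
      · left; norm_num
      · right; left; norm_num
      · right; right; norm_num
    · right
      exact classify hpo hp3 ha hc hb hd hne' h3 E

theorem mersenne {p k : ℕ} (hp : p.Prime) (h : p + 1 = 2 ^ (k + 1)) :
    TwoNearPerfect (2 ^ k * p ^ 3) := by
  have hp2 : p ≠ 2 := by
    rintro rfl
    rw [pow_succ] at h
    omega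
  refine ⟨by have := hp.pos; positivity, p, p ^ 2, (dvd_pow_self p (by norm_num)).mul_left _,
    (pow_dvd_pow p (by norm_num)).mul_left _, ?_, ?_⟩
  · intro h1
    have h2 : p * 1 = p * p := by rw [mul_one, ← sq]; exact h1
    have := Nat.eq_of_mul_eq_mul_left hp.pos h2
    exact hp.one_lt.ne this
  · have h1 := sum_div hp hp2 k 3
    have h2 : ((2 : ℤ) ^ (k + 1)) = p + 1 := by exact_mod_cast h.symm
    have h3 : (2 : ℤ) * 2 ^ k = p + 1 := by rw [← h2]; ring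
    rw [h2] at h1
    have h4 : G (p : ℤ) (3 + 1) = 1 + p + p ^ 2 + p ^ 3 := by
      rw [G_succ, G_succ, G_succ, G_succ, G_zero]; ring
    rw [h4] at h1
    have h5 : ((∑ d ∈ (2 ^ k * p ^ 3).divisors, d : ℕ) : ℤ) =
        ((2 * (2 ^ k * p ^ 3) + p + p ^ 2 : ℕ) : ℤ) := by
      rw [h1]
      push_cast
      linear_combination -(p : ℤ) ^ 3 * h3
    exact_mod_cast h5

theorem tnp18 : TwoNearPerfect 18 := ⟨by norm_num, 1, 2, by norm_num, by norm_num, by norm_num, by decide⟩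

theorem tnp36 : TwoNearPerfect 36 := ⟨by norm_num, 1, 18, by norm_num, by norm_num, by norm_num, by decide⟩

theorem tnp200 : TwoNearPerfect 200 :=
  ⟨by norm_num, 25, 40, by norm_num, by norm_num, by norm_num, by decide +kernel⟩

theorem classification :
    {n : ℕ | TwoNearPerfect n ∧ ∃ p k m : ℕ, p.Prime ∧ 2 ≤ m ∧ n = 2 ^ k * p ^ m} =
      {18, 36, 200} ∪ {n : ℕ | ∃ p k : ℕ, p.Prime ∧ p + 1 = 2 ^ (k + 1) ∧ n = 2 ^ k * p ^ 3} := by
  ext n
  simp only [Set.mem_setOf_eq, Set.mem_union, Set.mem_insert_iff, Set.mem_singleton_iff]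
  constructor
  · rintro ⟨h, p, k, m, hp, hm, hn⟩
    rcases forward hp hm hn h with h1 | ⟨h1, h2⟩
    · exact Or.inl h1
    · subst h1
      exact Or.inr ⟨p, k, hp, h2, hn⟩
  · rintro ((rfl | rfl | rfl) | ⟨p, k, hp, h, rfl⟩)
    · exact ⟨tnp18, 3, 1, 2, by norm_num, le_rfl, by norm_num⟩
    · exact ⟨tnp36, 3, 2, 2, by norm_num, le_rfl, by norm_num⟩
    · exact ⟨tnp200, 5, 3, 2, by norm_num, le_rfl, by norm_num⟩
    · exact ⟨mersenne hp h, p, k, 3, hp, by norm_num, rfl⟩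

theorem finite_iff :
    {n : ℕ | TwoNearPerfect n ∧ ∃ p k m : ℕ, p.Prime ∧ 2 ≤ m ∧ n = 2 ^ k * p ^ m}.Finite ↔
      {p : ℕ | p.Prime ∧ ∃ j : ℕ, p + 1 = 2 ^ j}.Finite := by
  rw [classification]
  have hM : {n : ℕ | ∃ p k : ℕ, p.Prime ∧ p + 1 = 2 ^ (k + 1) ∧ n = 2 ^ k * p ^ 3} =
      (fun p : ℕ => (p + 1) / 2 * p ^ 3) '' {p : ℕ | p.Prime ∧ ∃ j : ℕ, p + 1 = 2 ^ j} := by
    ext n
    simp only [Set.mem_setOf_eq, Set.mem_image]
    constructor
    · rintro ⟨p, k, hp, h, rfl⟩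
      refine ⟨p, ⟨hp, k + 1, h⟩, ?_⟩
      rw [h, pow_succ, Nat.mul_div_cancel _ (by norm_num)]
    · rintro ⟨p, ⟨hp, j, h⟩, rfl⟩
      obtain ⟨k, rfl⟩ : ∃ k, j = k + 1 := by
        rcases j with _ | j
        · rw [pow_zero] at h
          have := hp.pos
          omega
        · exact ⟨j, rfl⟩
      refine ⟨p, k, hp, h, ?_⟩
      rw [h, pow_succ, Nat.mul_div_cancel _ (by norm_num)]
  have hinj : Set.InjOn (fun p : ℕ => (p + 1) / 2 * p ^ 3) {p : ℕ | p.Prime ∧ ∃ j : ℕ, p + 1 = 2 ^ j} := by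
    have hmono : ∀ p q : ℕ, 0 < p → p < q → (p + 1) / 2 * p ^ 3 < (q + 1) / 2 * q ^ 3 := by
      intro p q hp hpq
      have h1 : (p + 1) / 2 ≤ (q + 1) / 2 := Nat.div_le_div_right (by omega)
      have h2 : p ^ 3 < q ^ 3 := Nat.pow_lt_pow_left hpq (by norm_num)
      have h3 : 0 < (q + 1) / 2 := by omega
      calc (p + 1) / 2 * p ^ 3 ≤ (q + 1) / 2 * p ^ 3 := Nat.mul_le_mul_right _ h1
        _ < _ := Nat.mul_lt_mul_of_pos_left h2 h3
    rintro p ⟨hp, -⟩ q ⟨hq, -⟩ hpq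
    rcases lt_trichotomy p q with h | h | h
    · exact absurd hpq (hmono p q hp.pos h).ne
    · exact h
    · exact absurd hpq (hmono q p hq.pos h).ne'
  rw [Set.finite_union, hM, Set.finite_image_iff hinj]
  constructor
  · exact fun h => h.2
  · exact fun h => ⟨by
      apply Set.Finite.insert
      apply Set.Finite.insert
      exact Set.finite_singleton _, h⟩

end Pool.Agent.P8H62.NP
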